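import Mathlib

/-!
# A skew shape with a unique cyclic descent map and three descent numbers

The `2 × 3` rectangle `S = (3,3)` has five standard Young tableaux, with descent sets
`{3}, {2,4}, {2,5}, {1,4}, {1,3,5}`.  It has exactly one cyclic descent map (with values
`{3,6}, {2,4,6}, {2,5}, {1,4}, {1,3,5}`), while `D(S) = {1,2,3}`.
-/

set_option autoImplicit false

namespace Pool.Agent.Results.MP_496e47_co.TwoByThree

/-- The set of cells of the skew shape `lam / mu` (English notation, `(i, j)` is the cell in row `i`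
and column `j`, rows and columns numbered from `0`). -/
def skewCells (lam mu : YoungDiagram) : Finset (ℕ × ℕ) := lam.cells \ mu.cells

/-- A standard Young tableau on a finite set `S` of cells: a bijective filling of the cells by
`1, …, n` (`n` the number of cells) that increases along rows and down columns; by convention the
entry is `0` outside `S`. -/
@[ext] structure SYT (S : Finset (ℕ × ℕ)) where
  /-- the entry of a cell -/
  entry : ℕ × ℕ → ℕ
  zero_of_notMem : ∀ c, c ∉ S → entry c = 0
  bijOn : Set.BijOn entry S (Set.Icc 1 S.card)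
  row_lt : ∀ i j j', (i, j) ∈ S → (i, j') ∈ S → j < j' → entry (i, j) < entry (i, j')
  col_lt : ∀ i i' j, (i, j) ∈ S → (i', j) ∈ S → i < i' → entry (i, j) < entry (i', j)

/-- The descent set of `T`: the `i ∈ {1, …, n-1}` such that `i + 1` lies in a row strictly below
the row of `i`. -/
def Des {S : Finset (ℕ × ℕ)} (T : SYT S) : Finset ℕ :=
  (Finset.Icc 1 (S.card - 1)).filter fun i =>
    ∃ c ∈ S, ∃ c' ∈ S, T.entry c = i ∧ T.entry c' = i + 1 ∧ c.1 < c'.1

/-- `D(S)`, the set of descent numbers that occur on the standard Young tableaux of shape `S`. -/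
def descentNumbers (S : Finset (ℕ × ℕ)) : Set ℕ := {d | ∃ T : SYT S, (Des T).card = d}

/-- `1 + J` modulo `n`, with values in `{1, …, n}`. -/
def rotate (n : ℕ) (J : Finset ℕ) : Finset ℕ := J.image fun i => i % n + 1

/-- `cDes` is a cyclic descent map for `S`: its values are subsets of `{1, …, n}` and there is a
bijection `φ` of the set of standard Young tableaux with the three properties. -/
def IsCyclicDescentMap (S : Finset (ℕ × ℕ)) (cDes : SYT S → Finset ℕ) : Prop :=
  (∀ T, cDes T ⊆ Finset.Icc 1 S.card) ∧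
  ∃ φ : SYT S ≃ SYT S, ∀ T,
    cDes T ∩ Finset.Icc 1 (S.card - 1) = Des T ∧
    cDes (φ T) = rotate S.card (cDes T) ∧
    cDes T ≠ ∅ ∧ cDes T ≠ Finset.Icc 1 S.card

/-! ### The rectangle -/

/-- the `2 × 3` rectangle -/
def rect : YoungDiagram where
  cells := Finset.range 2 ×ˢ Finset.range 3
  isLowerSet := by
    rintro ⟨a, b⟩ ⟨c, d⟩ h1 h2
    simp only [Prod.mk_le_mk] at h1
    simp only [Finset.coe_product, Set.mem_prod, Finset.coe_range, Set.mem_Iio] at h2 ⊢
    omega

/-- the cells of the rectangle -/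
abbrev R : Finset (ℕ × ℕ) := Finset.range 2 ×ˢ Finset.range 3

theorem skew_eq : skewCells rect ⊥ = R := by
  simp [skewCells, rect]

theorem card_R : R.card = 6 := by decide

/-- the filling with rows `a b c` and `d e f` -/
def fill (a b c d e f : ℕ) : ℕ × ℕ → ℕ := fun x =>
  if x = (0, 0) then a else if x = (0, 1) then b else if x = (0, 2) then c else
  if x = (1, 0) then d else if x = (1, 1) then e else if x = (1, 2) then f else 0

theorem fill_zero (a b c d e f : ℕ) (x : ℕ × ℕ) (hx : x ∉ R) : fill a b c d e f x = 0 := by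
  have h : ∀ y ∈ R, x ≠ y := fun y hy h => hx (h ▸ hy)
  simp only [fill]
  rw [if_neg (h _ (by decide)), if_neg (h _ (by decide)), if_neg (h _ (by decide)),
    if_neg (h _ (by decide)), if_neg (h _ (by decide)), if_neg (h _ (by decide))]

/-- a tableau of shape `R` from decidable conditions -/
def mk (a b c d e f : ℕ)
    (h1 : R.image (fill a b c d e f) = Finset.Icc 1 6)
    (h2 : ∀ x ∈ R, ∀ y ∈ R, x.1 = y.1 → x.2 < y.2 → fill a b c d e f x < fill a b c d e f y)
    (h3 : ∀ x ∈ R, ∀ y ∈ R, x.2 = y.2 → x.1 < y.1 → fill a b c d e f x < fill a b c d e f y) :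
    SYT R where
  entry := fill a b c d e f
  zero_of_notMem := fill_zero a b c d e f
  bijOn := by
    have himg : (fill a b c d e f) '' (R : Set (ℕ × ℕ)) = Set.Icc 1 R.card := by
      rw [card_R, ← Finset.coe_image, h1, Finset.coe_Icc]
    refine ⟨?_, ?_, ?_⟩
    · rw [Set.mapsTo_iff_image_subset, himg]
    · apply Finset.card_image_iff.1
      rw [h1, card_R]; rfl
    · rw [Set.SurjOn, himg]
  row_lt := fun i j j' hi hj hlt => h2 _ hi _ hj rfl hlt
  col_lt := fun i i' j hi hj hlt => h3 _ hi _ hj rfl hlt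

/-- the five tableaux -/
def T0 : SYT R := mk 1 2 3 4 5 6 (by decide) (by decide) (by decide)
/-- the five tableaux -/
def T1 : SYT R := mk 1 2 4 3 5 6 (by decide) (by decide) (by decide)
/-- the five tableaux -/
def T2 : SYT R := mk 1 2 5 3 4 6 (by decide) (by decide) (by decide)
/-- the five tableaux -/
def T3 : SYT R := mk 1 3 4 2 5 6 (by decide) (by decide) (by decide)
/-- the five tableaux -/
def T4 : SYT R := mk 1 3 5 2 4 6 (by decide) (by decide) (by decide)

theorem des0 : Des T0 = {3} := by decide +kernel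
theorem des1 : Des T1 = {2, 4} := by decide +kernel
theorem des2 : Des T2 = {2, 5} := by decide +kernel
theorem des3 : Des T3 = {1, 4} := by decide +kernel
theorem des4 : Des T4 = {1, 3, 5} := by decide +kernel

theorem classify (T : SYT R) : T = T0 ∨ T = T1 ∨ T = T2 ∨ T = T3 ∨ T = T4 := by
  have hmem : ∀ x ∈ R, 1 ≤ T.entry x ∧ T.entry x ≤ 6 := by
    intro x hx
    have := T.bijOn.mapsTo (Finset.mem_coe.2 hx)
    rw [card_R] at this
    exact this
  have hinj : ∀ x ∈ R, ∀ y ∈ R, x ≠ y → T.entry x ≠ T.entry y := by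
    intro x hx y hy hxy h
    exact hxy (T.bijOn.injOn (Finset.mem_coe.2 hx) (Finset.mem_coe.2 hy) h)
  have e : T.entry = fill (T.entry (0, 0)) (T.entry (0, 1)) (T.entry (0, 2))
      (T.entry (1, 0)) (T.entry (1, 1)) (T.entry (1, 2)) := by
    funext x
    by_cases hx : x ∈ R
    · have : x = (0,0) ∨ x = (0,1) ∨ x = (0,2) ∨ x = (1,0) ∨ x = (1,1) ∨ x = (1,2) := by
        revert x; decide
      rcases this with h | h | h | h | h | h <;> subst h <;> simp [fill]
    · rw [T.zero_of_notMem x hx, fill_zero _ _ _ _ _ _ x hx]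
  have r1 := T.row_lt 0 0 1 (by decide) (by decide) (by decide)
  have r2 := T.row_lt 0 1 2 (by decide) (by decide) (by decide)
  have r3 := T.row_lt 1 0 1 (by decide) (by decide) (by decide)
  have r4 := T.row_lt 1 1 2 (by decide) (by decide) (by decide)
  have c1 := T.col_lt 0 1 0 (by decide) (by decide) (by decide)
  have c2 := T.col_lt 0 1 1 (by decide) (by decide) (by decide)
  have c3 := T.col_lt 0 1 2 (by decide) (by decide) (by decide)
  have n1 := hinj (0,1) (by decide) (1,0) (by decide) (by decide)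
  have n2 := hinj (0,2) (by decide) (1,0) (by decide) (by decide)
  have n3 := hinj (0,2) (by decide) (1,1) (by decide) (by decide)
  have m1 := hmem (0,0) (by decide)
  have m2 := hmem (1,2) (by decide)
  generalize T.entry (0, 0) = a at *
  generalize T.entry (0, 1) = b at *
  generalize T.entry (0, 2) = c at *
  generalize T.entry (1, 0) = d at *
  generalize T.entry (1, 1) = f at *
  generalize T.entry (1, 2) = g at *
  have key : a = 1 ∧ g = 6 ∧ ((b = 2 ∧ c = 3 ∧ d = 4 ∧ f = 5) ∨ (b = 2 ∧ c = 4 ∧ d = 3 ∧ f = 5) ∨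
      (b = 2 ∧ c = 5 ∧ d = 3 ∧ f = 4) ∨ (b = 3 ∧ c = 4 ∧ d = 2 ∧ f = 5) ∨
      (b = 3 ∧ c = 5 ∧ d = 2 ∧ f = 4)) := by omega
  obtain ⟨rfl, rfl, h | h | h | h | h⟩ := key <;> obtain ⟨rfl, rfl, rfl, rfl⟩ := h
  · exact Or.inl (SYT.ext e)
  · exact Or.inr (Or.inl (SYT.ext e))
  · exact Or.inr (Or.inr (Or.inl (SYT.ext e)))
  · exact Or.inr (Or.inr (Or.inr (Or.inl (SYT.ext e))))
  · exact Or.inr (Or.inr (Or.inr (Or.inr (SYT.ext e))))

theorem des_mem (T : SYT R) : Des T = {3} ∨ Des T = {2, 4} ∨ Des T = {2, 5} ∨ Des T = {1, 4} ∨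
    Des T = {1, 3, 5} := by
  rcases classify T with h | h | h | h | h <;> subst h
  · exact Or.inl des0
  · exact Or.inr (Or.inl des1)
  · exact Or.inr (Or.inr (Or.inl des2))
  · exact Or.inr (Or.inr (Or.inr (Or.inl des3)))
  · exact Or.inr (Or.inr (Or.inr (Or.inr des4)))

theorem ne_of_des {T T' : SYT R} (h : Des T ≠ Des T') : T ≠ T' := fun e => h (e ▸ rfl)

theorem ne01 : T0 ≠ T1 := ne_of_des (by rw [des0, des1]; decide)
theorem ne02 : T0 ≠ T2 := ne_of_des (by rw [des0, des2]; decide)
theorem ne03 : T0 ≠ T3 := ne_of_des (by rw [des0, des3]; decide)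
theorem ne04 : T0 ≠ T4 := ne_of_des (by rw [des0, des4]; decide)
theorem ne12 : T1 ≠ T2 := ne_of_des (by rw [des1, des2]; decide)
theorem ne13 : T1 ≠ T3 := ne_of_des (by rw [des1, des3]; decide)
theorem ne14 : T1 ≠ T4 := ne_of_des (by rw [des1, des4]; decide)
theorem ne23 : T2 ≠ T3 := ne_of_des (by rw [des2, des3]; decide)
theorem ne24 : T2 ≠ T4 := ne_of_des (by rw [des2, des4]; decide)
theorem ne34 : T3 ≠ T4 := ne_of_des (by rw [des3, des4]; decide)

open Classical in
/-- the rotation of the tableaux: `T0 → T3 → T2 → T0`, `T1 → T4 → T1` -/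
noncomputable def rot (T : SYT R) : SYT R :=
  if T = T0 then T3 else if T = T3 then T2 else if T = T2 then T0 else if T = T1 then T4 else T1

theorem rot0 : rot T0 = T3 := by simp [rot]
theorem rot3 : rot T3 = T2 := by simp [rot, ne03.symm]
theorem rot2 : rot T2 = T0 := by simp [rot, ne02.symm, ne23]
theorem rot1 : rot T1 = T4 := by simp [rot, ne01.symm, ne13, ne12]
theorem rot4 : rot T4 = T1 := by simp [rot, ne04.symm, ne34.symm, ne24.symm, ne14.symm]

/-- the rotation as a permutation -/
noncomputable def rotEquiv : SYT R ≃ SYT R where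
  toFun := rot
  invFun := fun T => rot^[5] T
  left_inv := by
    intro T
    rcases classify T with h | h | h | h | h <;> subst h <;>
      simp [Function.iterate_succ_apply, rot0, rot1, rot2, rot3, rot4]
  right_inv := by
    intro T
    rcases classify T with h | h | h | h | h <;> subst h <;>
      simp [Function.iterate_succ_apply, rot0, rot1, rot2, rot3, rot4]

open Classical in
/-- the cyclic descent map -/
noncomputable def cd (T : SYT R) : Finset ℕ :=
  if T = T0 then {3, 6} else if T = T1 then {2, 4, 6} else Des T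

theorem cd0 : cd T0 = {3, 6} := by simp [cd]
theorem cd1 : cd T1 = {2, 4, 6} := by simp [cd, ne01.symm]
theorem cd2 : cd T2 = {2, 5} := by simp [cd, ne02.symm, ne12.symm, des2]
theorem cd3 : cd T3 = {1, 4} := by simp [cd, ne03.symm, ne13.symm, des3]
theorem cd4 : cd T4 = {1, 3, 5} := by simp [cd, ne04.symm, ne14.symm, des4]

theorem cd_isCyclic : IsCyclicDescentMap R cd := by
  refine ⟨?_, rotEquiv, ?_⟩
  · intro T
    rw [card_R]
    rcases classify T with h | h | h | h | h <;> subst h
    · rw [cd0]; decide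
    · rw [cd1]; decide
    · rw [cd2]; decide
    · rw [cd3]; decide
    · rw [cd4]; decide
  · intro T
    rw [card_R]
    have e : ∀ T, rotEquiv T = rot T := fun _ => rfl
    rw [e]
    rcases classify T with h | h | h | h | h <;> subst h
    · rw [rot0, cd0, cd3, des0]; decide
    · rw [rot1, cd1, cd4, des1]; decide
    · rw [rot2, cd2, cd0, des2]; decide
    · rw [rot3, cd3, cd2, des3]; decide
    · rw [rot4, cd4, cd1, des4]; decide

theorem options {c : SYT R → Finset ℕ} (hc : IsCyclicDescentMap R c) (T : SYT R) :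
    (c T = Des T ∨ c T = insert 6 (Des T)) ∧ ∃ T' : SYT R,
      rotate 6 (c T) ∩ Finset.Icc 1 5 = Des T' := by
  obtain ⟨h1, φ, h2⟩ := hc
  rw [card_R] at h2
  constructor
  · have ha := h1 T
    rw [card_R] at ha
    obtain ⟨hb, -, -, -⟩ := h2 T
    have hb' : c T ∩ Finset.Icc 1 5 = Des T := hb
    by_cases h6 : 6 ∈ c T
    · right
      ext x
      rw [Finset.mem_insert, ← hb', Finset.mem_inter, Finset.mem_Icc]
      constructor
      · intro hx
        have := Finset.mem_Icc.1 (ha hx)
        by_cases hx6 : x = 6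
        · exact Or.inl hx6
        · exact Or.inr ⟨hx, by omega, by omega⟩
      · rintro (hx | hx)
        · rwa [hx]
        · exact hx.1
    · left
      ext x
      rw [← hb', Finset.mem_inter, Finset.mem_Icc]
      constructor
      · intro hx
        have := Finset.mem_Icc.1 (ha hx)
        have hx6 : x ≠ 6 := fun h => h6 (h ▸ hx)
        exact ⟨hx, by omega, by omega⟩
      · exact fun hx => hx.1
  · refine ⟨φ T, ?_⟩
    obtain ⟨-, hr, -, -⟩ := h2 T
    obtain ⟨hb, -, -, -⟩ := h2 (φ T)
    rw [← hr]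
    exact hb

theorem cd_unique {c : SYT R → Finset ℕ} (hc : IsCyclicDescentMap R c) : c = cd := by
  funext T
  obtain ⟨h1, T', h2⟩ := options hc T
  have h3 := des_mem T'
  rw [← h2] at h3
  rcases classify T with h | h | h | h | h <;> subst h
  · rw [cd0]
    rw [des0] at h1
    rcases h1 with h1 | h1
    · rw [h1] at h3; exact absurd h3 (by decide)
    · rw [h1]; decide
  · rw [cd1]
    rw [des1] at h1
    rcases h1 with h1 | h1
    · rw [h1] at h3; exact absurd h3 (by decide)
    · rw [h1]; decide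
  · rw [cd2]
    rw [des2] at h1
    rcases h1 with h1 | h1
    · rw [h1]
    · rw [h1] at h3; exact absurd h3 (by decide)
  · rw [cd3]
    rw [des3] at h1
    rcases h1 with h1 | h1
    · rw [h1]
    · rw [h1] at h3; exact absurd h3 (by decide)
  · rw [cd4]
    rw [des4] at h1
    rcases h1 with h1 | h1
    · rw [h1]
    · rw [h1] at h3; exact absurd h3 (by decide)

theorem numbers : ¬ ∃ k : ℕ, descentNumbers R = {k, k + 1} := by
  rintro ⟨k, hk⟩
  have h1 : 1 ∈ descentNumbers R := ⟨T0, by rw [des0]; rfl⟩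
  have h3 : 3 ∈ descentNumbers R := ⟨T4, by rw [des4]; rfl⟩
  rw [hk] at h1 h3
  simp only [Set.mem_insert_iff, Set.mem_singleton_iff] at h1 h3
  omega

theorem result : ¬ ∀ lam mu : YoungDiagram, mu ≤ lam →
    (∃! cDes : SYT (skewCells lam mu) → Finset ℕ,
      IsCyclicDescentMap (skewCells lam mu) cDes) →
    ∃ k : ℕ, descentNumbers (skewCells lam mu) = {k, k + 1} := by
  intro h
  have h1 := h rect ⊥ bot_le
  rw [skew_eq] at h1
  exact numbers (h1 ⟨cd, cd_isCyclic, fun c hc => cd_unique hc⟩)

end Pool.Agent.Results.MP_496e47_co.TwoByThree
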